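import Pool.Agent.Fcc.Defs

set_option autoImplicit false

namespace Fcc

open Finset

/-- The boundary of an edge set over `ZMod 2`. -/
def bd {V E : Type} [DecidableEq V] (ends : E → Sym2 V) (C : Finset E) (v : V) : ZMod 2 :=
  ∑ e ∈ C, if v ∈ ends e then 1 else 0

/-- `T` contains a `T'`-join for every even set `T'` of vertices (`T` is connected and spanning). -/
def Full {V E : Type} [DecidableEq V] [Fintype V] (ends : E → Sym2 V) (T : Finset E) : Prop :=
  ∀ x : V → ZMod 2, ∑ v, x v = 0 → ∃ J ⊆ T, bd ends J = x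

/-- The rank of an edge set. -/
noncomputable def rk {V E : Type} [DecidableEq V] (ends : E → Sym2 V) (U : Finset E) : ℕ :=
  Module.finrank (ZMod 2) (Submodule.span (ZMod 2)
    ((fun e => (fun v => if v ∈ ends e then 1 else 0 : V → ZMod 2)) '' (U : Set E)))

/-- Matroid rank functions. -/
structure RankLike {S : Type} [DecidableEq S] (r : Finset S → ℕ) : Prop where
  empty : r ∅ = 0
  mono : ∀ X Y, X ⊆ Y → r X ≤ r Y
  unit : ∀ s X, r (insert s X) ≤ r X + 1
  submod : ∀ X Y, r (X ∪ Y) + r (X ∩ Y) ≤ r X + r Y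

end Fcc
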