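import Pool.Agent.Fcc.Cov

set_option autoImplicit false

namespace Fcc

open Finset

variable {V E : Type} [DecidableEq V] [Fintype V] [DecidableEq E]

theorem bd_eq_deg (ends : E → Sym2 V) (C : Finset E) (v : V) :
    bd ends C v = (deg ends C v : ZMod 2) := by
  rw [bd, deg, Finset.sum_boole]

theorem bd_pair (ends : E → Sym2 V) {g : E} {a b : V} (hg : ends g = s(a, b)) (hab : a ≠ b) :
    bd ends {g} = Pi.single a 1 + Pi.single b 1 := by
  funext v
  simp only [bd, Finset.sum_singleton, hg, Sym2.mem_iff, Pi.add_apply, Pi.single_apply]
  by_cases h1 : v = a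
  · subst h1; simp [hab]
  · by_cases h2 : v = b
    · subst h2; simp [h1]
    · simp [h1, h2]

theorem exists_end (ends : E → Sym2 V) (hl : ∀ e, ¬ (ends e).IsDiag) {g : E} {v : V}
    (hv : v ∈ ends g) : ∃ x, ends g = s(v, x) ∧ v ≠ x := by
  obtain ⟨x, hx⟩ := hv
  refine ⟨x, hx, ?_⟩
  intro h
  exact hl g (by rw [hx, h]; exact Sym2.mk_isDiag_iff.2 rfl)

/-- A minimal nonempty even set is a circuit. -/
theorem isCircuit_of_min (ends : E → Sym2 V) (hl : ∀ e, ¬ (ends e).IsDiag) (D : Finset E)
    (hne : D.Nonempty) (hD : bd ends D = 0)
    (hmin : ∀ D' ⊆ D, D'.Nonempty → bd ends D' = 0 → D' = D) : IsCircuit ends D := by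
  classical
  refine ⟨hne, ?_, ?_⟩
  · intro v
    have hev : Even (deg ends D v) := by
      rw [← ZMod.natCast_eq_zero_iff_even, ← bd_eq_deg, hD]; rfl
    by_contra hcon
    push Not at hcon
    obtain ⟨hd0, hd2⟩ := hcon
    have hpos : 0 < (D.filter (fun e => v ∈ ends e)).card := Nat.pos_of_ne_zero hd0
    obtain ⟨e, he⟩ := Finset.card_pos.1 hpos
    rw [Finset.mem_filter] at he
    obtain ⟨x, hex, hvx⟩ := exists_end ends hl he.2
    set D' := D.filter (fun g => v ∉ ends g) with hD'
    set K : Finset V := univ.filter
      (fun z => ∃ J ⊆ D', bd ends J = (Pi.single x 1 + Pi.single z 1 : V → ZMod 2)) with hK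
    have hxK : x ∈ K := by
      rw [hK, Finset.mem_filter]
      exact ⟨Finset.mem_univ _, ∅, Finset.empty_subset _, by rw [bd_empty, add_self]⟩
    have hvK : v ∉ K := by
      intro h
      rw [hK, Finset.mem_filter] at h
      obtain ⟨_, J, hJ, hJb⟩ := h
      have h1 : bd ends J v = 0 := by
        rw [bd]
        refine Finset.sum_eq_zero (fun g hg => ?_)
        have := hJ hg
        rw [hD', Finset.mem_filter] at this
        rw [if_neg this.2]
      rw [hJb] at h1
      simp [Pi.single_apply, hvx] at h1
    have hclos : ∀ g ∈ D', ∀ a b, ends g = s(a, b) → a ∈ K → b ∈ K := by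
      intro g hg a b hgab ha
      rw [hK, Finset.mem_filter] at ha ⊢
      obtain ⟨_, J, hJ, hJb⟩ := ha
      refine ⟨Finset.mem_univ _, symmDiff J {g}, ?_, ?_⟩
      · intro y hy
        rw [Finset.mem_symmDiff] at hy
        rcases hy with hy | hy
        · exact hJ hy.1
        · rw [Finset.mem_singleton] at hy; rw [hy.1]; exact hg
      · have hab : a ≠ b := by
          intro h
          exact hl g (by rw [hgab, h]; exact Sym2.mk_isDiag_iff.2 rfl)
        rw [bd_symmDiff, hJb, bd_pair ends hgab hab]
        have := add_self (Pi.single a 1 : V → ZMod 2)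
        calc (Pi.single x 1 + Pi.single a 1 : V → ZMod 2) + (Pi.single a 1 + Pi.single b 1)
            = Pi.single x 1 + (Pi.single a 1 + Pi.single a 1) + Pi.single b 1 := by abel
          _ = _ := by rw [this, add_zero]
    have hf : ∃ f ∈ D, f ≠ e ∧ ∃ y, ends f = s(v, y) ∧ y ∈ K := by
      by_contra hno
      push Not at hno
      have h1 : ∑ z ∈ K, bd ends D z = 0 := by
        rw [hD]; exact Finset.sum_const_zero
      have h2 : ∑ z ∈ K, bd ends D z = ∑ g ∈ D, if g = e then (1 : ZMod 2) else 0 := by
        simp only [bd]
        rw [Finset.sum_comm]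
        refine Finset.sum_congr rfl (fun g hg => ?_)
        by_cases hge : g = e
        · rw [if_pos hge, hge, Finset.sum_boole]
          have : K.filter (fun z => z ∈ ends e) = {x} := by
            ext z
            rw [Finset.mem_filter, Finset.mem_singleton, hex, Sym2.mem_iff]
            constructor
            · rintro ⟨hz, rfl | rfl⟩
              · exact absurd hz hvK
              · rfl
            · rintro rfl; exact ⟨hxK, Or.inr rfl⟩
          rw [this]; simp
        · rw [if_neg hge]
          by_cases hvg : v ∈ ends g
          · obtain ⟨y, hy, _⟩ := exists_end ends hl hvg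
            refine Finset.sum_eq_zero (fun z hz => ?_)
            rw [if_neg]
            rw [hy, Sym2.mem_iff]
            rintro (rfl | rfl)
            · exact hvK hz
            · exact hno g hg hge z hy hz
          · have hgD' : g ∈ D' := by rw [hD', Finset.mem_filter]; exact ⟨hg, hvg⟩
            induction hs : ends g with
            | h a b =>
              have hab : a ≠ b := by
                intro h
                exact hl g (by rw [hs, h]; exact Sym2.mk_isDiag_iff.2 rfl)
              by_cases ha : a ∈ K
              · have hb := hclos g hgD' a b hs ha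
                rw [Finset.sum_boole]
                have : K.filter (fun z => z ∈ s(a, b)) = {a, b} := by
                  ext z
                  rw [Finset.mem_filter, Sym2.mem_iff, Finset.mem_insert, Finset.mem_singleton]
                  constructor
                  · exact fun h => h.2
                  · rintro (rfl | rfl)
                    · exact ⟨ha, Or.inl rfl⟩
                    · exact ⟨hb, Or.inr rfl⟩
                rw [this, Finset.card_pair hab]; decide
              · have hb : b ∉ K := fun hb =>
                  ha (hclos g hgD' b a (by rw [hs, Sym2.eq_swap]) hb)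
                refine Finset.sum_eq_zero (fun z hz => ?_)
                rw [if_neg]
                rw [Sym2.mem_iff]
                rintro (rfl | rfl)
                · exact ha hz
                · exact hb hz
      rw [h2, Finset.sum_ite_eq' D e, if_pos he.1] at h1
      exact one_ne_zero h1
    obtain ⟨f, hfD, hfe, y, hfy, hyK⟩ := hf
    have hvy : v ≠ y := fun h => hvK (h ▸ hyK)
    rw [hK, Finset.mem_filter] at hyK
    obtain ⟨_, J, hJ, hJb⟩ := hyK
    have heJ : e ∉ J := by
      intro h
      have := hJ h
      rw [hD', Finset.mem_filter] at this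
      exact this.2 he.2
    have hvf : v ∈ ends f := by rw [hfy]; exact Sym2.mem_mk_left v y
    have hfJ : f ∉ J := by
      intro h
      have := hJ h
      rw [hD', Finset.mem_filter] at this
      exact this.2 hvf
    have hDD : J ∪ ({e} ∪ {f}) = D := by
      refine hmin _ ?_ ⟨e, by simp⟩ ?_
      · intro g hg
        simp only [Finset.mem_union, Finset.mem_singleton] at hg
        rcases hg with hg | rfl | rfl
        · have := hJ hg
          rw [hD', Finset.mem_filter] at this
          exact this.1
        · exact he.1
        · exact hfD
      · rw [bd_union, bd_union, hJb, bd_pair ends hex hvx, bd_pair ends hfy hvy]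
        · have h1 := add_self (Pi.single x 1 : V → ZMod 2)
          have h2 := add_self (Pi.single y 1 : V → ZMod 2)
          have h3 := add_self (Pi.single v 1 : V → ZMod 2)
          calc (Pi.single x 1 + Pi.single y 1 : V → ZMod 2)
                + (Pi.single v 1 + Pi.single x 1 + (Pi.single v 1 + Pi.single y 1))
              = (Pi.single x 1 + Pi.single x 1) + (Pi.single y 1 + Pi.single y 1)
                + (Pi.single v 1 + Pi.single v 1) := by abel
            _ = 0 := by rw [h1, h2, h3]; simp
        · rw [Finset.disjoint_singleton]; exact hfe.symm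
        · rw [Finset.disjoint_union_right]
          exact ⟨Finset.disjoint_singleton_right.2 heJ, Finset.disjoint_singleton_right.2 hfJ⟩
    apply hd2
    rw [← hDD, deg]
    have : (J ∪ ({e} ∪ {f})).filter (fun g => v ∈ ends g) = {e, f} := by
      ext g
      simp only [Finset.mem_filter, Finset.mem_union, Finset.mem_singleton, Finset.mem_insert]
      constructor
      · rintro ⟨h1 | h1, h2⟩
        · have := hJ h1
          rw [hD', Finset.mem_filter] at this
          exact absurd h2 this.2
        · exact h1
      · rintro (rfl | rfl)
        · exact ⟨Or.inr (Or.inl rfl), he.2⟩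
        · exact ⟨Or.inr (Or.inr rfl), hvf⟩
    rw [this, Finset.card_pair hfe.symm]
  · intro D0 hD0 hD0ne hD0D
    by_contra hno
    push Not at hno
    apply hD0D
    refine hmin D0 hD0 hD0ne ?_
    funext v
    by_cases hv : ∃ e ∈ D0, v ∈ ends e
    · obtain ⟨e, he, hve⟩ := hv
      have h1 : bd ends D v = bd ends D0 v := by
        simp only [bd]
        refine (Finset.sum_subset hD0 (fun f hf hf0 => ?_)).symm
        rw [if_neg]
        exact fun hvf => hno e he f (Finset.mem_sdiff.2 ⟨hf, hf0⟩) v hve hvf
      rw [← h1, hD]
    · push Not at hv
      simp only [bd]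
      exact Finset.sum_eq_zero (fun e he => if_neg (hv e he))

/-- An even edge set is a disjoint union of circuits. -/
theorem hasCover_of_even (ends : E → Sym2 V) (hl : ∀ e, ¬ (ends e).IsDiag) (C : Finset E)
    (h : ∀ v, bd ends C v = 0) : HasCover ends (fun e => if e ∈ C then 1 else 0) := by
  classical
  induction hn : C.card using Nat.strong_induction_on generalizing C with
  | _ n ih =>
    rcases C.eq_empty_or_nonempty with hC | hC
    · subst hC
      exact (HasCover.zero ends).congr (fun e => by simp)
    · have hCb : bd ends C = 0 := funext h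
      obtain ⟨D, hD, hDmin⟩ := Finset.exists_min_image
        (C.powerset.filter (fun D => D.Nonempty ∧ bd ends D = 0)) Finset.card
        ⟨C, by simp [hC, hCb]⟩
      rw [Finset.mem_filter, Finset.mem_powerset] at hD
      obtain ⟨hDC, hDne, hDb⟩ := hD
      have hcirc : IsCircuit ends D := by
        refine isCircuit_of_min ends hl D hDne hDb (fun D' h1 h2 h3 => ?_)
        refine Finset.eq_of_subset_of_card_le h1 (hDmin D' ?_)
        rw [Finset.mem_filter, Finset.mem_powerset]
        exact ⟨h1.trans hDC, h2, h3⟩
      have hlt : (C \ D).card < n := by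
        rw [← hn]
        refine Finset.card_lt_card ?_
        refine Finset.ssubset_iff_subset_ne.2 ⟨Finset.sdiff_subset, ?_⟩
        intro heq
        obtain ⟨e, he⟩ := hDne
        have : e ∈ C \ D := by rw [heq]; exact hDC he
        exact (Finset.mem_sdiff.1 this).2 he
      have h1 := ih _ hlt (C \ D) (fun v => by
        rw [bd_sdiff ends hDC, hCb, hDb]; simp) rfl
      have h2 : HasCover ends (fun e => if e ∈ D then 1 else 0) := by
        refine ⟨{D}, fun C hC => by rw [Multiset.mem_singleton.1 hC]; exact hcirc, fun e => ?_⟩
        by_cases he : e ∈ D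
        · simp [he, Multiset.filter_singleton]
        · simp [he, Multiset.filter_singleton]
      refine (h1.add h2).congr (fun e => ?_)
      by_cases he : e ∈ D
      · simp [he, hDC he]
      · by_cases he2 : e ∈ C <;> simp [he, he2]

end Fcc
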