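import Pool.Agent.Fcc.Base

set_option autoImplicit false

namespace Fcc

open Finset

variable {V E : Type} [DecidableEq V] [Fintype V] [DecidableEq E] [Fintype E]

omit [Fintype V] [DecidableEq E] [Fintype E] in
/-- The edge vector of `e = xy` is `1_x + 1_y`. -/
private theorem comp_vec (ends : E → Sym2 V) (hl : ∀ e, ¬ (ends e).IsDiag) (e : E) (x y : V)
    (hxy : ends e = s(x, y)) :
    (fun v => if v ∈ ends e then 1 else 0 : V → ZMod 2) = Pi.single x 1 - Pi.single y 1 := by
  have hne : x ≠ y := by
    intro h
    exact hl e (by rw [hxy]; exact h)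
  funext v
  rw [hxy]
  simp only [Sym2.mem_iff, Pi.sub_apply]
  by_cases h1 : v = x
  · subst h1
    rw [Pi.single_eq_same, Pi.single_eq_of_ne hne, if_pos (Or.inl rfl), sub_zero]
  · by_cases h2 : v = y
    · subst h2
      rw [Pi.single_eq_same, Pi.single_eq_of_ne h1, if_pos (Or.inr rfl)]
      decide
    · rw [Pi.single_eq_of_ne h1, Pi.single_eq_of_ne h2, if_neg (by tauto), sub_zero]

/-- The cut condition gives the partition condition of the tree packing theorem. Proof: `u ~ v` iff
`1_u + 1_v` is in the span of the edge vectors of `U`; `p` classes, `card V ≤ rk U + p`; if `p ≥ 2`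
every class has a cut of weight at least `2 * K` outside `U`, and every edge is in at most two. -/
theorem comp_ineq (ends : E → Sym2 V) (hl : ∀ e, ¬ (ends e).IsDiag) (g : E → ℕ) (K : ℕ)
    (hg : ∀ X : Finset V, X.Nonempty → X ≠ univ → 2 * K ≤ ∑ e ∈ cut ends X, g e)
    (U : Finset E) : K * (Fintype.card V - 1 - rk ends U) ≤ ∑ e ∈ Uᶜ, g e := by
  classical
  set W : Submodule (ZMod 2) (V → ZMod 2) := Submodule.span (ZMod 2)
    ((fun e => (fun v => if v ∈ ends e then 1 else 0 : V → ZMod 2)) '' (U : Set E)) with hW
  let st : Setoid V :=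
    { r := fun u v => (Pi.single u 1 - Pi.single v 1 : V → ZMod 2) ∈ W
      iseqv :=
        { refl := fun u => by rw [sub_self]; exact W.zero_mem
          symm := fun {u v} h => by
            have h' := W.neg_mem h
            rwa [neg_sub] at h'
          trans := fun {u v w} h1 h2 => by
            have h' := W.add_mem h1 h2
            rwa [sub_add_sub_cancel] at h' } }
  have hrel : ∀ u v : V, (Quotient.mk st u = Quotient.mk st v) ↔
      (Pi.single u 1 - Pi.single v 1 : V → ZMod 2) ∈ W := fun u v => Quotient.eq
  have hrk : Fintype.card V ≤ rk ends U + Fintype.card (Quotient st) := by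
    set b : Quotient st → (V → ZMod 2) := fun q => Pi.single q.out 1 with hb
    have htop : (⊤ : Submodule (ZMod 2) (V → ZMod 2)) ≤ W ⊔ Submodule.span (ZMod 2) (Set.range b) := by
      intro f _
      rw [pi_eq_sum_univ' f]
      refine Submodule.sum_mem _ (fun v _ => Submodule.smul_mem _ _ ?_)
      have h3 : (Pi.single v 1 : V → ZMod 2) ∈ W ⊔ Submodule.span (ZMod 2) (Set.range b) := by
        have h4 : (Pi.single v 1 - Pi.single (Quotient.mk st v).out 1 : V → ZMod 2) ∈ W :=
          (hrel _ _).1 (Quotient.out_eq _).symm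
        have h5 : (Pi.single v 1 : V → ZMod 2) =
            (Pi.single v 1 - Pi.single (Quotient.mk st v).out 1) + b (Quotient.mk st v) := by
          rw [hb, sub_add_cancel]
        rw [h5]
        exact Submodule.add_mem_sup h4 (Submodule.subset_span ⟨_, rfl⟩)
      exact h3
    have h6 : Module.finrank (ZMod 2) (V → ZMod 2) ≤
        Module.finrank (ZMod 2) (W ⊔ Submodule.span (ZMod 2) (Set.range b) : Submodule _ _) := by
      have := Submodule.finrank_mono htop
      rwa [finrank_top] at this
    rw [Module.finrank_fintype_fun_eq_card] at h6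
    have h7 := Submodule.finrank_add_le_finrank_add_finrank W
      (Submodule.span (ZMod 2) (Set.range b))
    have h8 : Module.finrank (ZMod 2) (Submodule.span (ZMod 2) (Set.range b)) ≤
        Fintype.card (Quotient st) := finrank_range_le_card b
    have h9 : rk ends U = Module.finrank (ZMod 2) W := rfl
    omega
  by_cases hp : Fintype.card (Quotient st) ≤ 1
  · have h0 : Fintype.card V - 1 - rk ends U = 0 := by omega
    rw [h0, Nat.mul_zero]
    exact Nat.zero_le _
  · have hp2 : 1 < Fintype.card (Quotient st) := by omega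
    set C : Quotient st → Finset V := fun q => univ.filter (fun v => Quotient.mk st v = q) with hC
    have hmem : ∀ q v, v ∈ C q ↔ Quotient.mk st v = q := fun q v => by
      simp only [hC, mem_filter, mem_univ, true_and]
    have hne : ∀ q, (C q).Nonempty := fun q => ⟨q.out, (hmem _ _).2 (Quotient.out_eq q)⟩
    have hnu : ∀ q, C q ≠ univ := by
      intro q hq
      obtain ⟨q', hq'⟩ := Fintype.exists_ne_of_one_lt_card hp2 q
      have h1 : q'.out ∈ C q := hq ▸ mem_univ _
      exact hq' ((Quotient.out_eq q').symm.trans ((hmem _ _).1 h1))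
    have hcutU : ∀ q, cut ends (C q) ⊆ Uᶜ := by
      intro q e he
      rw [mem_compl]
      intro heU
      simp only [cut, mem_filter, mem_univ, true_and] at he
      obtain ⟨x, y, hxy, hx, hy⟩ := he
      apply hy
      rw [hmem] at hx ⊢
      rw [← hx]
      refine ((hrel y x).2 ?_)
      have h1 : (Pi.single x 1 - Pi.single y 1 : V → ZMod 2) ∈ W := by
        rw [← comp_vec ends hl e x y hxy]
        exact Submodule.subset_span ⟨e, heU, rfl⟩
      have h2 := W.neg_mem h1
      rwa [neg_sub] at h2
    have htwo : ∀ e, (univ.filter (fun q => e ∈ cut ends (C q))).card ≤ 2 := by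
      intro e
      obtain ⟨x, y, hxy⟩ : ∃ x y, ends e = s(x, y) := by
        induction h : ends e using Sym2.ind with
        | _ x y => exact ⟨x, y, rfl⟩
      have hsub : univ.filter (fun q => e ∈ cut ends (C q)) ⊆
          ({Quotient.mk st x, Quotient.mk st y} : Finset (Quotient st)) := by
        intro q hq
        simp only [cut, mem_filter, mem_univ, true_and] at hq
        obtain ⟨a, b, hab, ha, _⟩ := hq
        rw [hxy, Sym2.eq_iff] at hab
        rw [hmem] at ha
        rw [mem_insert, mem_singleton]
        rcases hab with ⟨h1, _⟩ | ⟨_, h2⟩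
        · left; rw [h1]; exact ha.symm
        · right; rw [h2]; exact ha.symm
      exact (card_le_card hsub).trans card_le_two
    have hsum : ∑ q : Quotient st, ∑ e ∈ cut ends (C q), g e ≤ 2 * ∑ e ∈ Uᶜ, g e := by
      calc ∑ q : Quotient st, ∑ e ∈ cut ends (C q), g e
          = ∑ q : Quotient st, ∑ e ∈ Uᶜ, if e ∈ cut ends (C q) then g e else 0 := by
            refine sum_congr rfl (fun q _ => ?_)
            rw [← sum_filter, filter_mem_eq_inter, inter_eq_right.2 (hcutU q)]
        _ = ∑ e ∈ Uᶜ, ∑ q : Quotient st, if e ∈ cut ends (C q) then g e else 0 := sum_comm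
        _ ≤ ∑ e ∈ Uᶜ, 2 * g e := by
            refine sum_le_sum (fun e _ => ?_)
            rw [← sum_filter, sum_const, smul_eq_mul]
            exact Nat.mul_le_mul_right _ (htwo e)
        _ = 2 * ∑ e ∈ Uᶜ, g e := by rw [mul_sum]
    have hlow : Fintype.card (Quotient st) * (2 * K) ≤
        ∑ q : Quotient st, ∑ e ∈ cut ends (C q), g e := by
      rw [← card_univ, ← smul_eq_mul, ← sum_const]
      exact sum_le_sum (fun q _ => hg (C q) (hne q) (hnu q))
    have h1 : K * (Fintype.card V - 1 - rk ends U) ≤ K * Fintype.card (Quotient st) :=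
      Nat.mul_le_mul_left _ (by omega)
    have h2 : 2 * (K * Fintype.card (Quotient st)) ≤ 2 * ∑ e ∈ Uᶜ, g e := by
      calc 2 * (K * Fintype.card (Quotient st)) = Fintype.card (Quotient st) * (2 * K) := by ring
        _ ≤ _ := hlow.trans hsum
    omega

end Fcc
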