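import Pool.Agent.Fcc.Base

set_option autoImplicit false

namespace Fcc

open Finset

variable {V E : Type} [DecidableEq V] [DecidableEq E]

theorem HasCover.zero (ends : E → Sym2 V) : HasCover ends (fun _ => 0) :=
  ⟨0, by simp, by simp⟩

theorem HasCover.add {ends : E → Sym2 V} {w w' : E → ℕ} (h : HasCover ends w)
    (h' : HasCover ends w') : HasCover ends (fun e => w e + w' e) := by
  obtain ⟨F, hF, hFw⟩ := h
  obtain ⟨F', hF', hFw'⟩ := h'
  refine ⟨F + F', ?_, ?_⟩
  · intro C hC
    rcases Multiset.mem_add.1 hC with h | h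
    · exact hF C h
    · exact hF' C h
  · intro e
    rw [Multiset.filter_add, Multiset.card_add, hFw, hFw']

theorem HasCover.congr {ends : E → Sym2 V} {w w' : E → ℕ} (h : HasCover ends w)
    (hw : ∀ e, w' e = w e) : HasCover ends w' := by
  have : w' = w := funext hw
  rw [this]; exact h

theorem HasCover.sum {ends : E → Sym2 V} {ι : Type} (s : Finset ι) {w : ι → E → ℕ}
    (h : ∀ i ∈ s, HasCover ends (w i)) : HasCover ends (fun e => ∑ i ∈ s, w i e) := by
  classical
  induction s using Finset.induction_on with
  | empty => simpa using HasCover.zero ends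
  | insert a s ha ih =>
    have h1 := h a (Finset.mem_insert_self a s)
    have h2 := ih (fun i hi => h i (Finset.mem_insert_of_mem hi))
    exact (h1.add h2).congr (fun e => Finset.sum_insert ha)

theorem bd_empty (ends : E → Sym2 V) : bd ends ∅ = 0 := by
  funext v; simp [bd]

theorem bd_union (ends : E → Sym2 V) {A B : Finset E} (h : Disjoint A B) :
    bd ends (A ∪ B) = bd ends A + bd ends B := by
  funext v; simp only [bd, Pi.add_apply]; exact Finset.sum_union h

theorem add_self (x : V → ZMod 2) : x + x = 0 := by
  funext v; exact CharTwo.add_self_eq_zero (x v)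

theorem bd_sdiff (ends : E → Sym2 V) {A B : Finset E} (h : B ⊆ A) :
    bd ends (A \ B) = bd ends A + bd ends B := by
  have h1 : bd ends A = bd ends (A \ B) + bd ends B := by
    rw [← bd_union ends Finset.sdiff_disjoint, Finset.sdiff_union_of_subset h]
  rw [h1, add_assoc, add_self, add_zero]

theorem bd_symmDiff (ends : E → Sym2 V) (A B : Finset E) :
    bd ends (symmDiff A B) = bd ends A + bd ends B := by
  have h1 : symmDiff A B = (A \ (A ∩ B)) ∪ (B \ (A ∩ B)) := by
    ext x; simp only [Finset.mem_symmDiff, Finset.mem_union, Finset.mem_sdiff, Finset.mem_inter]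
    tauto
  have h2 : Disjoint (A \ (A ∩ B)) (B \ (A ∩ B)) := by
    rw [Finset.disjoint_left]
    intro x hx hx'
    simp only [Finset.mem_sdiff, Finset.mem_inter] at hx hx'
    tauto
  rw [h1, bd_union ends h2, bd_sdiff ends Finset.inter_subset_left,
    bd_sdiff ends Finset.inter_subset_right]
  have := add_self (bd ends (A ∩ B))
  calc bd ends A + bd ends (A ∩ B) + (bd ends B + bd ends (A ∩ B))
      = bd ends A + bd ends B + (bd ends (A ∩ B) + bd ends (A ∩ B)) := by abel
    _ = bd ends A + bd ends B := by rw [this, add_zero]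

theorem bd_biUnion (ends : E → Sym2 V) {ι : Type} (s : Finset ι) [DecidableEq ι] (A : ι → Finset E)
    (h : ∀ i ∈ s, ∀ j ∈ s, i ≠ j → Disjoint (A i) (A j)) :
    bd ends (s.biUnion A) = ∑ i ∈ s, bd ends (A i) := by
  funext v
  rw [Finset.sum_apply]
  simp only [bd]
  exact Finset.sum_biUnion (fun i hi j hj hij => h i hi j hj hij)

/-- The boundary of any edge set has an even number of ones. -/
theorem sum_bd [Fintype V] (ends : E → Sym2 V) (hl : ∀ e, ¬ (ends e).IsDiag) (C : Finset E) :
    ∑ v, bd ends C v = 0 := by
  simp only [bd]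
  rw [Finset.sum_comm]
  refine Finset.sum_eq_zero (fun e _ => ?_)
  have he := hl e
  induction hs : ends e with
  | h x y =>
    have hxy : x ≠ y := by
      intro h; apply he; rw [hs, h]; exact Sym2.mk_isDiag_iff.2 rfl
    rw [Finset.sum_ite, Finset.sum_const_zero, add_zero, Finset.sum_const]
    have : (univ.filter (fun v => v ∈ s(x, y))) = {x, y} := by
      ext v; simp [Sym2.mem_iff]
    rw [this, Finset.card_pair hxy]
    decide

end Fcc
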