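import Mathlib

set_option autoImplicit false

namespace Fcc

open Finset

/-- The number of edges of `C` at the vertex `v`. -/
def deg {V E : Type} [DecidableEq V] (ends : E → Sym2 V) (C : Finset E) (v : V) : ℕ :=
  (C.filter (fun e => v ∈ ends e)).card

/-- `C` is the edge set of a circuit, i.e. of a connected 2-regular subgraph: it is not empty, every
vertex lies in no or in exactly two edges of `C`, and no proper nonempty part `D` of `C` is
vertex-disjoint from `C \ D`. -/
def IsCircuit {V E : Type} [DecidableEq V] [DecidableEq E] (ends : E → Sym2 V) (C : Finset E) :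
    Prop :=
  C.Nonempty ∧ (∀ v, deg ends C v = 0 ∨ deg ends C v = 2) ∧
    ∀ D ⊆ C, D.Nonempty → D ≠ C → ∃ e ∈ D, ∃ f ∈ C \ D, ∃ v, v ∈ ends e ∧ v ∈ ends f

open Classical in
/-- The edge cut `δ(X)`: the edges with exactly one end in `X` (the graph has no loops). -/
noncomputable def cut {V E : Type} [Fintype E] (ends : E → Sym2 V) (X : Finset V) : Finset E :=
  univ.filter (fun e => ∃ x y, ends e = s(x, y) ∧ x ∈ X ∧ y ∉ X)

/-- There is a finite family of circuits (repetitions allowed) in which every edge `e` lies in
exactly `w e` members: a faithful circuit cover of `w`. -/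
def HasCover {V E : Type} [DecidableEq V] [DecidableEq E] (ends : E → Sym2 V) (w : E → ℕ) : Prop :=
  ∃ F : Multiset (Finset E), (∀ C ∈ F, IsCircuit ends C) ∧
    ∀ e, (F.filter (fun C => e ∈ C)).card = w e

end Fcc
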