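import Pool.Agent.Fcc.Base

set_option autoImplicit false

namespace Fcc

open Finset

private theorem inter_contract {S : Type} [DecidableEq S] {r : Finset S → ℕ} (h : RankLike r)
    (e : S) (he : r {e} = 1) : RankLike (fun X => r (insert e X) - 1) := by
  have h1 : ∀ X, 1 ≤ r (insert e X) := fun X => by
    rw [← he]
    exact h.mono _ _ (by simp)
  refine ⟨?_, ?_, ?_, ?_⟩
  · have : insert e (∅ : Finset S) = {e} := rfl
    simp [this, he]
  · intro X Y hXY
    exact Nat.sub_le_sub_right (h.mono _ _ (insert_subset_insert _ hXY)) 1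
  · intro s X
    have h2 := h.unit s (insert e X)
    rw [Finset.insert_comm s e X] at h2
    have h3 := h1 X
    show r (insert e (insert s X)) - 1 ≤ r (insert e X) - 1 + 1
    omega
  · intro X Y
    have h2 := h.submod (insert e X) (insert e Y)
    rw [← insert_union_distrib, ← insert_inter_distrib] at h2
    have h3 := h1 (X ∪ Y)
    have h4 := h1 (X ∩ Y)
    have h5 := h1 X
    have h6 := h1 Y
    show r (insert e (X ∪ Y)) - 1 + (r (insert e (X ∩ Y)) - 1) ≤
      r (insert e X) - 1 + (r (insert e Y) - 1)
    omega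

private theorem inter_aux {S : Type} [DecidableEq S] (E : Finset S) :
    ∀ (r1 r2 : Finset S → ℕ), RankLike r1 → RankLike r2 → ∀ k : ℕ,
      (∀ U ⊆ E, k ≤ r1 U + r2 (E \ U)) → ∃ I ⊆ E, I.card = k ∧ r1 I = k ∧ r2 I = k := by
  induction E using Finset.induction_on with
  | empty =>
    intro r1 r2 h1 h2 k hk
    have := hk ∅ (Subset.refl _)
    simp only [sdiff_self, bot_eq_empty, h1.empty, h2.empty] at this
    have hk0 : k = 0 := by omega
    subst hk0
    exact ⟨∅, Subset.refl _, card_empty, h1.empty, h2.empty⟩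
  | @insert e E he ih =>
    intro r1 r2 h1 h2 k hk
    have hS : ∀ U ⊆ E, insert e E \ insert e U = E \ U := by
      intro U hU
      ext x
      simp only [mem_sdiff, mem_insert]
      constructor
      · rintro ⟨rfl | hx, h⟩
        · exact absurd (Or.inl rfl) h
        · exact ⟨hx, fun h' => h (Or.inr h')⟩
      · rintro ⟨hx, h⟩
        refine ⟨Or.inr hx, ?_⟩
        rintro (rfl | h')
        · exact he hx
        · exact h h'
    have hT : ∀ U ⊆ E, insert e E \ U = insert e (E \ U) := by
      intro U hU
      exact insert_sdiff_of_notMem _ (fun h => he (hU h))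
    -- deletion
    by_cases hdel : ∀ U ⊆ E, k ≤ r1 U + r2 (E \ U)
    · obtain ⟨I, hI, h⟩ := ih r1 r2 h1 h2 k hdel
      exact ⟨I, hI.trans (subset_insert _ _), h⟩
    push Not at hdel
    obtain ⟨A, hA, hAk⟩ := hdel
    -- both ranks of `e` are one
    have hs1 : r1 (insert e A) ≤ r1 A + r1 {e} := by
      have := h1.submod A {e}
      have h3 : A ∪ {e} = insert e A := by
        rw [union_comm]; rfl
      rw [h3] at this
      omega
    have hs2 : r2 (insert e (E \ A)) ≤ r2 (E \ A) + r2 {e} := by
      have := h2.submod (E \ A) {e}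
      have h3 : (E \ A) ∪ {e} = insert e (E \ A) := by
        rw [union_comm]; rfl
      rw [h3] at this
      omega
    have hu1 : r1 {e} ≤ 1 := by
      have := h1.unit e ∅
      rw [h1.empty] at this
      exact this
    have hu2 : r2 {e} ≤ 1 := by
      have := h2.unit e ∅
      rw [h2.empty] at this
      exact this
    have hk1 := hk (insert e A) (insert_subset_insert _ hA)
    rw [hS A hA] at hk1
    have hk2 := hk A (hA.trans (subset_insert _ _))
    rw [hT A hA] at hk2
    have he1 : r1 {e} = 1 := by omega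
    have he2 : r2 {e} = 1 := by omega
    -- contraction
    have hk0 : 1 ≤ k := by omega
    by_cases hcon : ∀ U ⊆ E, k - 1 ≤ (r1 (insert e U) - 1) + (r2 (insert e (E \ U)) - 1)
    · obtain ⟨I, hI, hc, hr1, hr2⟩ := ih _ _ (inter_contract h1 e he1) (inter_contract h2 e he2)
        (k - 1) hcon
      have hg1 : 1 ≤ r1 (insert e I) := by
        rw [← he1]; exact h1.mono _ _ (by simp)
      have hg2 : 1 ≤ r2 (insert e I) := by
        rw [← he2]; exact h2.mono _ _ (by simp)
      refine ⟨insert e I, insert_subset_insert _ hI, ?_, ?_, ?_⟩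
      · rw [card_insert_of_notMem (fun h => he (hI h))]
        omega
      · have : r1 (insert e I) - 1 = k - 1 := hr1
        omega
      · have : r2 (insert e I) - 1 = k - 1 := hr2
        omega
    push Not at hcon
    obtain ⟨B, hB, hBk⟩ := hcon
    have hg1 : 1 ≤ r1 (insert e B) := by
      rw [← he1]; exact h1.mono _ _ (by simp)
    have hg2 : 1 ≤ r2 (insert e (E \ B)) := by
      rw [← he2]; exact h2.mono _ _ (by simp)
    have hm1 := h1.submod A (insert e B)
    have hm2 := h2.submod (E \ A) (insert e (E \ B))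
    have hx1 : A ∪ insert e B = insert e (A ∪ B) := by
      rw [union_insert]
    have hx2 : A ∩ insert e B = A ∩ B := by
      rw [inter_insert_of_notMem (fun h => he (hA h))]
    have hx3 : (E \ A) ∪ insert e (E \ B) = insert e (E \ (A ∩ B)) := by
      rw [union_insert, sdiff_inter_distrib_right]
    have hx4 : (E \ A) ∩ insert e (E \ B) = E \ (A ∪ B) := by
      rw [inter_insert_of_notMem (fun h => he (mem_sdiff.1 h).1), sdiff_union_distrib]
    rw [hx1, hx2] at hm1
    rw [hx3, hx4] at hm2
    have hAB : A ∪ B ⊆ E := union_subset hA hB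
    have hAB' : A ∩ B ⊆ E := inter_subset_left.trans hA
    have hq1 := hk (insert e (A ∪ B)) (insert_subset_insert _ hAB)
    rw [hS _ hAB] at hq1
    have hq2 := hk (A ∩ B) (hAB'.trans (subset_insert _ _))
    rw [hT _ hAB'] at hq2
    omega

/-- The matroid intersection theorem. -/
theorem intersection {S : Type} [DecidableEq S] [Fintype S] {r1 r2 : Finset S → ℕ}
    (h1 : RankLike r1) (h2 : RankLike r2) (k : ℕ) (hk : ∀ U : Finset S, k ≤ r1 U + r2 Uᶜ) :
    ∃ I : Finset S, I.card = k ∧ r1 I = k ∧ r2 I = k := by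
  obtain ⟨I, -, h⟩ := inter_aux (univ : Finset S) r1 r2 h1 h2 k (fun U _ => by
    have := hk U
    rwa [compl_eq_univ_sdiff] at this)
  exact ⟨I, h⟩

end Fcc
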