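import Pool.Agent.Fcc.Circ
import Pool.Agent.Fcc.Cov

set_option autoImplicit false

namespace Fcc

open Finset

variable {V E : Type} [DecidableEq V] [Fintype V] [DecidableEq E]

/-- Indicator of an edge set. -/
def ind (C : Finset E) (e : E) : ℕ := if e ∈ C then 1 else 0

theorem ind_sdiff {A B : Finset E} (h : B ⊆ A) (e : E) : ind (A \ B) e + ind B e = ind A e := by
  unfold ind
  by_cases h1 : e ∈ B
  · have := h h1; simp [h1, this]
  · by_cases h2 : e ∈ A <;> simp [h1, h2]

theorem ind_union {A B : Finset E} (h : Disjoint A B) (e : E) :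
    ind (A ∪ B) e = ind A e + ind B e := by
  unfold ind
  have := Finset.disjoint_left.1 h
  by_cases h1 : e ∈ A
  · have := this h1; simp [h1, this]
  · by_cases h2 : e ∈ B <;> simp [h1, h2]

theorem ind_biUnion {ι : Type} [DecidableEq ι] (s : Finset ι) (A : ι → Finset E)
    (h : ∀ i ∈ s, ∀ j ∈ s, i ≠ j → Disjoint (A i) (A j)) (e : E) :
    ind (s.biUnion A) e = ∑ i ∈ s, ind (A i) e := by
  induction s using Finset.induction_on with
  | empty => simp [ind]
  | insert a s ha ih =>
    rw [Finset.biUnion_insert, Finset.sum_insert ha, ind_union, ih]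
    · intro i hi j hj hij
      exact h i (Finset.mem_insert_of_mem hi) j (Finset.mem_insert_of_mem hj) hij
    · rw [Finset.disjoint_biUnion_right]
      intro i hi
      exact h a (Finset.mem_insert_self a s) i (Finset.mem_insert_of_mem hi)
        (fun hh => ha (hh ▸ hi))

theorem ind_le {C : Finset E} {e : E} : ind C e ≤ 1 := by unfold ind; split_ifs <;> simp

theorem hasCover_ind (ends : E → Sym2 V) (hl : ∀ e, ¬ (ends e).IsDiag) (C : Finset E)
    (h : bd ends C = 0) : HasCover ends (ind C) :=
  (hasCover_of_even ends hl C (fun v => by rw [h]; rfl)).congr (fun _ => rfl)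

theorem layer (ends : E → Sym2 V) (hl : ∀ e, ¬ (ends e).IsDiag) [Fintype E] (H : ℕ) (hH : 2 ≤ H)
    (T : Fin H → Finset E) (hT : ∀ j, Full ends (T j))
    (hd : ∀ j j', j ≠ j' → Disjoint (T j) (T j')) (c : E → ℕ) (hc : ∀ e, c e ≤ 2 * H + 1)
    (hcT : ∀ j, ∀ e ∈ T j, 2 ≤ c e ∧ c e ≤ 2 * H - 1)
    (heul : ∀ v, Even (∑ e ∈ univ.filter (fun e => v ∈ ends e), c e)) :
    HasCover ends c := by
  classical
  -- the sets `P e`
  have hP : ∀ e, ∃ P : Finset ℕ, P ⊆ range (2 * H + 1) ∧ P.card = c e ∧
      ∀ j : Fin H, e ∈ T j → (j : ℕ) ∈ P ∧ (j : ℕ) + H ∈ P ∧ (j : ℕ) + 1 ∉ P ∧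
        (j : ℕ) + H + 1 ∉ P := by
    intro e
    by_cases he : ∃ j, e ∈ T j
    · obtain ⟨j, hj⟩ := he
      have hjH := j.2
      have h0 : ({(j : ℕ), (j : ℕ) + H} : Finset ℕ) ⊆
          (range (2 * H + 1)) \ {(j : ℕ) + 1, (j : ℕ) + H + 1} := by
        intro x hx
        simp only [Finset.mem_insert, Finset.mem_singleton] at hx
        simp only [Finset.mem_sdiff, Finset.mem_range, Finset.mem_insert, Finset.mem_singleton]
        omega
      have h1 : ({(j : ℕ), (j : ℕ) + H} : Finset ℕ).card ≤ c e := by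
        rw [Finset.card_pair (by omega)]; exact (hcT j e hj).1
      have h2 : c e ≤ ((range (2 * H + 1)) \ {(j : ℕ) + 1, (j : ℕ) + H + 1}).card := by
        rw [Finset.card_sdiff_of_subset, Finset.card_range, Finset.card_pair (by omega)]
        · have := (hcT j e hj).2; omega
        · intro x hx
          simp only [Finset.mem_insert, Finset.mem_singleton] at hx
          rw [Finset.mem_range]; omega
      obtain ⟨P, hP1, hP2, hP3⟩ := Finset.exists_subsuperset_card_eq h0 h1 h2
      refine ⟨P, hP2.trans Finset.sdiff_subset, hP3, ?_⟩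
      intro j' hj'
      by_cases hjj : j = j'
      · subst hjj
        refine ⟨hP1 (by simp), hP1 (by simp), ?_, ?_⟩
        · intro hx
          have := hP2 hx
          simp at this
        · intro hx
          have := hP2 hx
          simp at this
      · exact absurd hj' (Finset.disjoint_left.1 (hd j j' hjj) hj)
    · have h2 : c e ≤ (range (2 * H + 1)).card := by simpa using hc e
      obtain ⟨P, hP1, hP2⟩ := Finset.exists_subset_card_eq h2
      exact ⟨P, hP1, hP2, fun j hj => absurd ⟨j, hj⟩ he⟩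
  choose P hPr hPc hPT using hP
  set A : ℕ → Finset E := fun s => univ.filter (fun e => s ∈ P e) with hA
  have hsumA : ∑ s ∈ range (2 * H + 1), bd ends (A s) = 0 := by
    funext v
    rw [Finset.sum_apply]
    simp only [bd, hA]
    have h1 : ∀ s, ∑ e ∈ univ.filter (fun e => s ∈ P e), (if v ∈ ends e then (1 : ZMod 2) else 0)
        = ∑ e, if s ∈ P e then (if v ∈ ends e then (1 : ZMod 2) else 0) else 0 := by
      intro s; rw [Finset.sum_filter]
    simp only [h1]
    rw [Finset.sum_comm]
    have h2 : ∀ e, ∑ s ∈ range (2 * H + 1),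
        (if s ∈ P e then (if v ∈ ends e then (1 : ZMod 2) else 0) else 0)
        = if v ∈ ends e then (c e : ZMod 2) else 0 := by
      intro e
      by_cases hv : v ∈ ends e
      · simp only [if_pos hv]
        rw [Finset.sum_boole]
        have : (range (2 * H + 1)).filter (fun s => s ∈ P e) = P e := by
          ext s; simp only [Finset.mem_filter]; exact ⟨fun h => h.2, fun h => ⟨hPr e h, h⟩⟩
        rw [this, hPc]
      · simp [hv]
    simp only [h2]
    rw [← Finset.sum_filter, ← Nat.cast_sum]
    obtain ⟨r, hr⟩ := heul v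
    rw [hr]
    push_cast
    exact CharTwo.add_self_eq_zero _
  have hJ : ∀ t, ∃ J : Finset E, (t < 2 * H → (∃ j : Fin H, (t = j ∨ t = j + H) ∧ J ⊆ T j) ∧
      bd ends J = ∑ s ∈ range (t + 1), bd ends (A s)) ∧ (2 * H ≤ t → J = ∅) := by
    intro t
    by_cases ht : t < 2 * H
    · have hz : ∑ v, (∑ s ∈ range (t + 1), bd ends (A s)) v = 0 := by
        simp only [Finset.sum_apply]
        rw [Finset.sum_comm]
        exact Finset.sum_eq_zero (fun s _ => sum_bd ends hl (A s))
      by_cases ht2 : t < H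
      · obtain ⟨J, h1, h2⟩ := hT ⟨t, ht2⟩ _ hz
        exact ⟨J, fun _ => ⟨⟨⟨t, ht2⟩, Or.inl rfl, h1⟩, h2⟩, fun h => absurd ht (by omega)⟩
      · obtain ⟨J, h1, h2⟩ := hT ⟨t - H, by omega⟩ _ hz
        refine ⟨J, fun _ => ⟨⟨⟨t - H, by omega⟩, Or.inr ?_, h1⟩, h2⟩, fun h => absurd ht (by omega)⟩
        simp only; omega
    · exact ⟨∅, fun h => absurd h ht, fun _ => rfl⟩
  choose J hJ1 hJ2 using hJ
  have hJA : ∀ s, J s ⊆ A s := by
    intro s e he
    by_cases hs : s < 2 * H
    · obtain ⟨⟨j, hj, hjT⟩, _⟩ := hJ1 s hs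
      have := hPT e j (hjT he)
      simp only [hA, Finset.mem_filter, Finset.mem_univ, true_and]
      rcases hj with rfl | rfl
      · exact this.1
      · exact this.2.1
    · rw [hJ2 s (by omega)] at he; exact absurd he (Finset.notMem_empty e)
  have hJA' : ∀ s, Disjoint (J s) (A (s + 1)) := by
    intro s
    rw [Finset.disjoint_left]
    intro e he he'
    by_cases hs : s < 2 * H
    · obtain ⟨⟨j, hj, hjT⟩, _⟩ := hJ1 s hs
      have := hPT e j (hjT he)
      simp only [hA, Finset.mem_filter, Finset.mem_univ, true_and] at he'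
      rcases hj with rfl | rfl
      · exact this.2.2.1 he'
      · exact this.2.2.2 he'
    · rw [hJ2 s (by omega)] at he; exact absurd he (Finset.notMem_empty e)
  set J' : ℕ → Finset E := fun s => if s = 0 then ∅ else J (s - 1) with hJ'
  have hJ'0 : J' 0 = ∅ := by simp [hJ']
  have hJ's : ∀ s, J' (s + 1) = J s := by intro s; simp [hJ']
  have hdis : ∀ s, Disjoint (A s \ J s) (J' s) := by
    intro s
    rcases s with _ | s
    · rw [hJ'0]; exact Finset.disjoint_empty_right _
    · rw [hJ's]
      exact Finset.disjoint_of_subset_left Finset.sdiff_subset (hJA' s).symm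
  have hcov : ∀ s ∈ range (2 * H + 1), HasCover ends (ind ((A s \ J s) ∪ J' s)) := by
    intro s hs
    rw [Finset.mem_range] at hs
    refine hasCover_ind ends hl _ ?_
    rw [bd_union ends (hdis s), bd_sdiff ends (hJA s)]
    rcases s with _ | s
    · rw [hJ'0, bd_empty, add_zero, (hJ1 0 (by omega)).2]
      simp [add_self]
    · rw [hJ's, (hJ1 s (by omega)).2]
      by_cases hs2 : s + 1 < 2 * H
      · rw [(hJ1 (s + 1) hs2).2, Finset.sum_range_succ _ (s + 1)]
        have h1 := add_self (bd ends (A (s + 1)))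
        have h2 := add_self (∑ r ∈ range (s + 1), bd ends (A r))
        calc bd ends (A (s + 1)) + (∑ r ∈ range (s + 1), bd ends (A r) + bd ends (A (s + 1)))
              + ∑ r ∈ range (s + 1), bd ends (A r)
            = (bd ends (A (s + 1)) + bd ends (A (s + 1)))
              + (∑ r ∈ range (s + 1), bd ends (A r) + ∑ r ∈ range (s + 1), bd ends (A r)) := by abel
          _ = 0 := by rw [h1, h2, add_zero]
      · have hs3 : s + 1 = 2 * H := by omega
        rw [hJ2 (s + 1) (by omega), bd_empty, add_zero, add_comm, ← Finset.sum_range_succ, hs3,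
          hsumA]
  refine (HasCover.sum (ends := ends) (range (2 * H + 1)) hcov).congr ?_
  intro e
  have c0 : ∀ s ∈ range (2 * H + 1),
      ind ((A s \ J s) ∪ J' s) e = ind (A s \ J s) e + ind (J' s) e :=
    fun s _ => ind_union (hdis s) e
  rw [Finset.sum_congr rfl c0, Finset.sum_add_distrib]
  have c1 : ∑ s ∈ range (2 * H + 1), ind (A s \ J s) e + ∑ s ∈ range (2 * H + 1), ind (J s) e
      = ∑ s ∈ range (2 * H + 1), ind (A s) e := by
    rw [← Finset.sum_add_distrib]
    exact Finset.sum_congr rfl (fun s _ => ind_sdiff (hJA s) e)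
  have c2 : ∑ s ∈ range (2 * H + 1), ind (J' s) e = ∑ s ∈ range (2 * H), ind (J s) e := by
    rw [Finset.sum_range_succ', hJ'0]
    simp only [hJ's]
    simp [ind]
  have c3 : ∑ s ∈ range (2 * H + 1), ind (J s) e = ∑ s ∈ range (2 * H), ind (J s) e := by
    rw [Finset.sum_range_succ, hJ2 (2 * H) le_rfl]
    simp [ind]
  have c4 : ∑ s ∈ range (2 * H + 1), ind (A s) e = c e := by
    simp only [ind, hA, Finset.mem_filter, Finset.mem_univ, true_and]
    rw [Finset.sum_boole]
    have : (range (2 * H + 1)).filter (fun s => s ∈ P e) = P e := by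
      ext s; simp only [Finset.mem_filter]; exact ⟨fun h => h.2, fun h => ⟨hPr e h, h⟩⟩
    rw [this, hPc]; rfl
  omega

end Fcc
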