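import Pool.Agent.Fcc.Pack
import Pool.Agent.Fcc.Layer

set_option autoImplicit false

namespace Fcc

open Finset

/-- Integers between given bounds with a given sum. -/
theorem interpolate {ι : Type} [Fintype ι] (l H : ι → ℕ) (hlH : ∀ i, l i ≤ H i) (u : ℕ)
    (h1 : ∑ i, l i ≤ u) (h2 : u ≤ ∑ i, H i) :
    ∃ k : ι → ℕ, (∀ i, l i ≤ k i) ∧ (∀ i, k i ≤ H i) ∧ ∑ i, k i = u := by
  classical
  obtain ⟨d, hd⟩ := Nat.exists_eq_add_of_le h1
  induction d generalizing l with
  | zero => exact ⟨l, fun _ => le_rfl, hlH, by omega⟩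
  | succ d ih =>
    have hex : ∃ i, l i < H i := by
      by_contra hcon
      push Not at hcon
      have : ∑ i, H i ≤ ∑ i, l i := Finset.sum_le_sum (fun i _ => hcon i)
      omega
    obtain ⟨i, hi⟩ := hex
    have hs : ∑ j, Function.update l i (l i + 1) j = ∑ j, l j + 1 := by
      rw [Finset.sum_update_of_mem (Finset.mem_univ i)]
      have := Finset.add_sum_erase univ l (Finset.mem_univ i)
      rw [← Finset.erase_eq] 
      omega
    obtain ⟨k, hk1, hk2, hk3⟩ := ih (Function.update l i (l i + 1)) (by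
      intro j
      by_cases hj : j = i
      · subst hj; simp; omega
      · simp [Function.update_of_ne hj, hlH j]) (by omega) (by omega)
    refine ⟨k, ?_, hk2, hk3⟩
    intro j
    have := hk1 j
    by_cases hj : j = i
    · subst hj; simp at this; omega
    · simpa [Function.update_of_ne hj] using this

variable {V E : Type} [DecidableEq V] [Fintype V] [DecidableEq E] [Fintype E]

theorem cover_small (ends : E → Sym2 V) (hl : ∀ e, ¬ (ends e).IsDiag) (w : E → ℕ)
    (heul : ∀ v, Even (∑ e ∈ univ.filter (fun e => v ∈ ends e), w e)) (hw1 : ∀ e, w e ≤ 1) :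
    HasCover ends w := by
  classical
  refine (hasCover_of_even ends hl (univ.filter (fun e => w e = 1)) ?_).congr ?_
  · intro v
    obtain ⟨r, hr⟩ := heul v
    have h1 : bd ends (univ.filter (fun e => w e = 1)) v
        = ((∑ e ∈ univ.filter (fun e => v ∈ ends e), w e : ℕ) : ZMod 2) := by
      rw [bd, Nat.cast_sum, Finset.sum_filter, Finset.sum_filter]
      refine Finset.sum_congr rfl (fun e _ => ?_)
      have := hw1 e
      interval_cases h : w e <;> simp
    rw [h1, hr]
    push_cast
    exact CharTwo.add_self_eq_zero _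
  · intro e
    have := hw1 e
    simp only [Finset.mem_filter, Finset.mem_univ, true_and]
    split_ifs with h
    · exact h
    · omega

theorem cover_general (ends : E → Sym2 V) (hl : ∀ e, ¬ (ends e).IsDiag) (w : E → ℕ)
    (heul : ∀ v, Even (∑ e ∈ univ.filter (fun e => v ∈ ends e), w e)) (H L : ℕ) (hH : 2 ≤ H)
    (hL : Even L) (hwL : ∀ e, 2 * (w e / 2) ≤ H * L)
    (hcut : ∀ X : Finset V, X.Nonempty → X ≠ univ →
      2 * H * L ≤ ∑ e ∈ cut ends X, min (min (2 * (w e / 2)) L) (H * L - 2 * (w e / 2))) :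
    HasCover ends w := by
  classical
  obtain ⟨N, hN⟩ := hL
  have hLN : L = 2 * N := by omega
  have hHL : H * L = 2 * (H * N) := by rw [hLN]; ring
  set u : E → ℕ := fun e => w e / 2 with hu
  have huN : ∀ e, u e ≤ H * N := by
    intro e
    have := hwL e
    rw [hHL] at this
    exact Nat.le_of_mul_le_mul_left this (by norm_num)
  rcases Nat.eq_zero_or_pos N with hN0 | hNpos
  · refine cover_small ends hl w heul (fun e => ?_)
    have := huN e
    rw [hN0, mul_zero] at this
    simp only [hu] at this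
    omega
  set c : E → ℕ := fun e => min (u e) (H * N - u e) with hcdef
  have hmin : ∀ e, min (min (2 * (w e / 2)) L) (H * L - 2 * (w e / 2)) = 2 * min (c e) N := by
    intro e
    rw [hHL, hLN]
    simp only [hcdef, hu]
    omega
  have hH1 : H - 1 + 1 = H := by omega
  have hcut' : ∀ X : Finset V, X.Nonempty → X ≠ univ →
      2 * (N * (H - 1 + 1)) ≤ ∑ e ∈ cut ends X, min (c e) N := by
    intro X h1 h2
    have h3 := hcut X h1 h2
    rw [Finset.sum_congr rfl (fun e _ => hmin e), ← Finset.mul_sum, mul_assoc, hHL] at h3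
    have h5 := Nat.le_of_mul_le_mul_left h3 (by norm_num)
    rw [hH1, mul_comm N H]
    exact h5
  obtain ⟨T, hTF, hTd, hTu⟩ := packing ends hl c N (H - 1) hcut'
  have hk : ∀ e, ∃ k : Fin N → ℕ, (∀ i, (if ∃ j, e ∈ T i j then 1 else 0) ≤ k i) ∧
      (∀ i, k i ≤ (if ∃ j, e ∈ T i j then H - 1 else H)) ∧ ∑ i, k i = u e := by
    intro e
    have hq := hTu e
    set q := (univ.filter (fun i => ∃ j, e ∈ T i j)).card with hqdef
    have hqu : q ≤ u e := le_trans hq (min_le_left _ _)
    have hqN : q ≤ H * N - u e := le_trans hq (min_le_right _ _)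
    refine interpolate (fun i => if ∃ j, e ∈ T i j then 1 else 0)
      (fun i => if ∃ j, e ∈ T i j then H - 1 else H) ?_ (u e) ?_ ?_
    · intro i
      split_ifs
      · omega
      · exact Nat.zero_le H
    · rw [Finset.sum_boole]
      exact hqu
    · have h6 : ∑ i : Fin N, (if ∃ j, e ∈ T i j then H - 1 else H)
          + ∑ i : Fin N, (if ∃ j, e ∈ T i j then 1 else 0) = H * N := by
        rw [← Finset.sum_add_distrib]
        have : ∀ i : Fin N, ((if ∃ j, e ∈ T i j then H - 1 else H)
            + (if ∃ j, e ∈ T i j then 1 else 0)) = H := by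
          intro i; split_ifs <;> omega
        rw [Finset.sum_congr rfl (fun i _ => this i)]
        simp [mul_comm]
      have h7 : ∑ i : Fin N, (if ∃ j, e ∈ T i j then 1 else 0) = q := by
        rw [Finset.sum_boole]; rfl
      have := huN e
      omega
  choose k hk1 hk2 hk3 using hk
  set i0 : Fin N := ⟨0, hNpos⟩ with hi0
  have hodd : ∀ v, Even (∑ e ∈ univ.filter (fun e => v ∈ ends e), w e % 2) := by
    intro v
    have h8 : ∑ e ∈ univ.filter (fun e => v ∈ ends e), w e
        = 2 * ∑ e ∈ univ.filter (fun e => v ∈ ends e), w e / 2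
          + ∑ e ∈ univ.filter (fun e => v ∈ ends e), w e % 2 := by
      rw [Finset.mul_sum, ← Finset.sum_add_distrib]
      exact Finset.sum_congr rfl (fun e _ => (Nat.div_add_mod (w e) 2).symm)
    have h9 := heul v
    rw [h8] at h9
    exact (Nat.even_add.1 h9).1 (even_two_mul _)
  have hcov : ∀ i ∈ (univ : Finset (Fin N)),
      HasCover ends (fun e => 2 * k e i + (if i = i0 then w e % 2 else 0)) := by
    intro i _
    have hT2 : ∀ j : Fin H, (Fin.cast hH1.symm j) = (Fin.cast hH1.symm j) := fun _ => rfl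
    refine layer ends hl H hH (fun j => T i (Fin.cast hH1.symm j))
      (fun j => hTF i _) ?_ _ ?_ ?_ ?_
    · intro j j' hjj
      exact hTd i _ _ (fun hcon => hjj (Fin.cast_injective _ hcon))
    · intro e
      have h1 := hk2 e i
      have h2 : w e % 2 < 2 := Nat.mod_lt _ (by norm_num)
      split_ifs at h1 ⊢ <;> omega
    · intro j e he
      have h1 := hk1 e i
      have h2 := hk2 e i
      rw [if_pos ⟨_, he⟩] at h1 h2
      have h3 : w e % 2 < 2 := Nat.mod_lt _ (by norm_num)
      split_ifs <;> omega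
    · intro v
      rw [Finset.sum_add_distrib, ← Finset.mul_sum]
      refine Even.add (even_two_mul _) ?_
      split_ifs
      · exact hodd v
      · simp
  refine (HasCover.sum (ends := ends) univ hcov).congr (fun e => ?_)
  rw [Finset.sum_add_distrib, ← Finset.mul_sum, hk3, Finset.sum_ite_eq' univ i0]
  simp only [Finset.mem_univ, if_true, hu]
  exact (Nat.div_add_mod (w e) 2).symm

theorem eul_of_even (ends : E → Sym2 V) (w : E → ℕ) (hw : ∀ e, Even (w e)) (v : V) :
    Even (∑ e ∈ univ.filter (fun e => v ∈ ends e), w e) :=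
  Finset.even_sum _ (fun e _ => hw e)

theorem cover_mod_four (ends : E → Sym2 V) (hl : ∀ e, ¬ (ends e).IsDiag) (w : E → ℕ)
    (hw : ∀ e, Even (w e)) (M : ℕ) (hM : 4 ∣ M) (hwM : ∀ e, w e ≤ M)
    (hcut : ∀ X : Finset V, X.Nonempty → X ≠ univ →
      2 * M ≤ ∑ e ∈ cut ends X, min (w e) (M - w e)) :
    HasCover ends w := by
  obtain ⟨N, hN⟩ := hM
  have hv : ∀ e, 2 * (w e / 2) = w e := fun e => Nat.two_mul_div_two_of_even (hw e)
  refine cover_general ends hl w (eul_of_even ends w hw) 2 (2 * N) le_rfl (even_two_mul N) ?_ ?_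
  · intro e; rw [hv]; have := hwM e; omega
  · intro X h1 h2
    have h3 := hcut X h1 h2
    have h4 : ∑ e ∈ cut ends X,
        min (min (2 * (w e / 2)) (2 * N)) (2 * (2 * N) - 2 * (w e / 2))
        = ∑ e ∈ cut ends X, min (w e) (M - w e) :=
      Finset.sum_congr rfl (fun e _ => by rw [hv]; omega)
    rw [h4]
    have h5 : 2 * 2 * (2 * N) = 2 * M := by rw [hN]; ring
    rw [h5]
    exact h3

theorem cover_four (ends : E → Sym2 V) (hl : ∀ e, ¬ (ends e).IsDiag) (w : E → ℕ)
    (hw : ∀ e, Even (w e))
    (hcut : ∀ X : Finset V, X.Nonempty → X ≠ univ → ∀ e, 4 * w e ≤ ∑ f ∈ cut ends X, w f) :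
    HasCover ends w := by
  classical
  by_cases hE : Nonempty E
  · obtain ⟨e0, _, he0⟩ := Finset.exists_max_image (univ : Finset E) w Finset.univ_nonempty
    have hv : ∀ e, 2 * (w e / 2) = w e := fun e => Nat.two_mul_div_two_of_even (hw e)
    refine cover_general ends hl w (eul_of_even ends w hw) 2 (w e0) le_rfl (hw e0) ?_ ?_
    · intro e; rw [hv]; have := he0 e (Finset.mem_univ e); omega
    · intro X h1 h2
      have h3 := hcut X h1 h2 e0
      have h4 : ∑ e ∈ cut ends X, min (min (2 * (w e / 2)) (w e0)) (2 * w e0 - 2 * (w e / 2))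
          = ∑ e ∈ cut ends X, w e :=
        Finset.sum_congr rfl (fun e _ => by
          have := he0 e (Finset.mem_univ e)
          rw [hv]; omega)
      rw [h4]
      simpa using h3
  · refine (HasCover.zero ends).congr (fun e => absurd ⟨e⟩ hE)

theorem cover_ratio (ends : E → Sym2 V) (hl : ∀ e, ¬ (ends e).IsDiag) (w : E → ℕ)
    (hw : ∀ e, Even (w e)) (h : ℕ) (hwh : ∀ e f, w e ≤ h * w f)
    (hcut : ∀ X : Finset V, X.Nonempty → X ≠ univ → 2 * h + 2 ≤ (cut ends X).card) :
    HasCover ends w := by
  classical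
  by_cases hE : Nonempty E
  · by_cases hh : h = 0
    · refine (HasCover.zero ends).congr (fun e => ?_)
      have := hwh e e
      rw [hh] at this
      simpa using this
    obtain ⟨e0, _, he0⟩ := Finset.exists_min_image (univ : Finset E) w Finset.univ_nonempty
    have hv : ∀ e, 2 * (w e / 2) = w e := fun e => Nat.two_mul_div_two_of_even (hw e)
    refine cover_general ends hl w (eul_of_even ends w hw) (h + 1) (w e0) (by omega) (hw e0) ?_ ?_
    · intro e
      rw [hv]
      have := hwh e e0
      calc w e ≤ h * w e0 := this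
        _ ≤ (h + 1) * w e0 := Nat.mul_le_mul_right _ (Nat.le_succ h)
    · intro X h1 h2
      have h3 := hcut X h1 h2
      have h4 : ∑ e ∈ cut ends X,
          min (min (2 * (w e / 2)) (w e0)) ((h + 1) * w e0 - 2 * (w e / 2))
          = (cut ends X).card * w e0 := by
        rw [Finset.sum_congr rfl (fun e _ => ?_), Finset.sum_const, smul_eq_mul]
        rw [hv, min_eq_right (he0 e (Finset.mem_univ e)), min_eq_left]
        have := hwh e e0
        rw [add_mul, one_mul]
        omega
      rw [h4]
      have h5 : 2 * (h + 1) = 2 * h + 2 := by ring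
      rw [h5]
      exact Nat.mul_le_mul_right _ h3
  · refine (HasCover.zero ends).congr (fun e => absurd ⟨e⟩ hE)

end Fcc
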