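import Pool.Agent.Fcc.Base

set_option autoImplicit false

namespace Fcc

open Finset

-- BEGIN rankf
theorem rankf_fib_insert {K S : Type} [DecidableEq K] [DecidableEq S] (k : K) (t : S)
    (X : Finset (K × S)) (a : K) :
    ((insert (k, t) X).filter (fun p => p.1 = a)).image Prod.snd =
      if a = k then insert t ((X.filter (fun p => p.1 = a)).image Prod.snd)
        else (X.filter (fun p => p.1 = a)).image Prod.snd := by
  by_cases h : a = k
  · rw [if_pos h, filter_insert, if_pos h.symm, image_insert]
  · rw [if_neg h, filter_insert, if_neg (fun h1 => h h1.symm)]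

theorem rankf_fib_inter {K S : Type} [DecidableEq K] [DecidableEq S] (X Y : Finset (K × S))
    (a : K) :
    ((X ∩ Y).filter (fun p => p.1 = a)).image Prod.snd =
      (X.filter (fun p => p.1 = a)).image Prod.snd ∩
        (Y.filter (fun p => p.1 = a)).image Prod.snd := by
  ext t
  simp only [mem_image, mem_filter, mem_inter]
  constructor
  · rintro ⟨p, ⟨⟨h1, h2⟩, h3⟩, h4⟩
    exact ⟨⟨p, ⟨h1, h3⟩, h4⟩, ⟨p, ⟨h2, h3⟩, h4⟩⟩
  · rintro ⟨⟨p, ⟨h1, h2⟩, h3⟩, ⟨q, ⟨h4, h5⟩, h6⟩⟩
    have hpq : p = q := Prod.ext (h2.trans h5.symm) (h3.trans h6.symm)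
    exact ⟨p, ⟨⟨h1, hpq ▸ h4⟩, h2⟩, h3⟩

/-- A sum of rank functions over the fibres of a product is a rank function. -/
theorem rankLike_fiber {K S : Type} [DecidableEq K] [Fintype K] [DecidableEq S]
    (ρ : K → Finset S → ℕ) (h : ∀ a, RankLike (ρ a)) :
    RankLike (fun X : Finset (K × S) => ∑ a, ρ a ((X.filter (fun p => p.1 = a)).image Prod.snd)) := by
  refine ⟨?_, ?_, ?_, ?_⟩
  · simp only [filter_empty, image_empty, (h _).empty, sum_const_zero]
  · intro X Y hXY
    exact sum_le_sum (fun a _ => (h a).mono _ _ (image_subset_image (filter_subset_filter _ hXY)))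
  · rintro ⟨k, t⟩ X
    show (∑ a, ρ a (((insert (k, t) X).filter (fun p => p.1 = a)).image Prod.snd)) ≤
      (∑ a, ρ a ((X.filter (fun p => p.1 = a)).image Prod.snd)) + 1
    have h1 : ∀ a, ρ a (((insert (k, t) X).filter (fun p => p.1 = a)).image Prod.snd) ≤
        ρ a ((X.filter (fun p => p.1 = a)).image Prod.snd) + if a = k then 1 else 0 := by
      intro a
      rw [rankf_fib_insert]
      by_cases hk : a = k
      · rw [if_pos hk, if_pos hk]
        exact (h a).unit _ _
      · rw [if_neg hk, if_neg hk]
        exact le_rfl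
    refine (sum_le_sum (fun a _ => h1 a)).trans ?_
    rw [sum_add_distrib, sum_ite_eq' univ k (fun _ => 1), if_pos (mem_univ k)]
  · intro X Y
    show (∑ a, ρ a (((X ∪ Y).filter (fun p => p.1 = a)).image Prod.snd)) +
      (∑ a, ρ a (((X ∩ Y).filter (fun p => p.1 = a)).image Prod.snd)) ≤
      (∑ a, ρ a ((X.filter (fun p => p.1 = a)).image Prod.snd)) +
      (∑ a, ρ a ((Y.filter (fun p => p.1 = a)).image Prod.snd))
    rw [← sum_add_distrib, ← sum_add_distrib]
    refine sum_le_sum (fun a _ => ?_)
    rw [filter_union, image_union, rankf_fib_inter]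
    exact (h a).submod _ _

/-- At most `c` elements and at most one in each row. -/
theorem rankLike_rows {A B : Type} [DecidableEq A] [DecidableEq B] (c : ℕ) :
    RankLike (fun Y : Finset (A × B) => min c (Y.image Prod.fst).card) := by
  refine ⟨?_, ?_, ?_, ?_⟩
  · simp only [image_empty, card_empty, Nat.min_zero]
  · intro X Y hXY
    exact min_le_min_left c (card_le_card (image_subset_image hXY))
  · intro s X
    show min c ((insert s X).image Prod.fst).card ≤ min c (X.image Prod.fst).card + 1
    rw [image_insert]
    have h1 := card_insert_le s.1 (X.image Prod.fst)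
    omega
  · intro X Y
    show min c ((X ∪ Y).image Prod.fst).card + min c ((X ∩ Y).image Prod.fst).card ≤
      min c (X.image Prod.fst).card + min c (Y.image Prod.fst).card
    have h1 : ((X ∩ Y).image Prod.fst).card ≤ (X.image Prod.fst ∩ Y.image Prod.fst).card :=
      card_le_card (image_inter_subset _ _ _)
    have h2 := card_union_add_card_inter (X.image Prod.fst) (Y.image Prod.fst)
    have h3 : (X.image Prod.fst ∩ Y.image Prod.fst).card ≤ (X.image Prod.fst).card :=
      card_le_card inter_subset_left
    have h4 : (X.image Prod.fst ∩ Y.image Prod.fst).card ≤ (Y.image Prod.fst).card :=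
      card_le_card inter_subset_right
    rw [image_union]
    omega
-- END rankf

variable {V E : Type} [DecidableEq V] [Fintype V] [DecidableEq E]

-- BEGIN
omit [DecidableEq E] in
private theorem rankv_sum_col (ends : E → Sym2 V) (hl : ∀ e, ¬ (ends e).IsDiag) (e : E) :
    ∑ v : V, (if v ∈ ends e then 1 else 0 : ZMod 2) = 0 := by
  have hd := hl e
  generalize ends e = z at hd
  induction z using Sym2.ind with
  | _ x y =>
    have hxy : x ≠ y := by
      intro h
      exact hd (by simp [h])
    have h1 : ∀ v : V, (if v ∈ s(x, y) then 1 else 0 : ZMod 2) =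
        (if v = x then 1 else 0) + (if v = y then 1 else 0) := by
      intro v
      by_cases h1 : v = x
      · subst h1
        simp [hxy]
      · by_cases h2 : v = y
        · subst h2
          simp [h1]
        · simp [h1, h2]
    rw [Finset.sum_congr rfl (fun v _ => h1 v), Finset.sum_add_distrib]
    simp only [Finset.sum_ite_eq', Finset.mem_univ, if_true]
    decide

omit [DecidableEq E] in
private theorem rankv_span_le (ends : E → Sym2 V) (hl : ∀ e, ¬ (ends e).IsDiag) (U : Finset E) :
    Submodule.span (ZMod 2)
      ((fun e => (fun v => if v ∈ ends e then 1 else 0 : V → ZMod 2)) '' (U : Set E)) ≤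
    LinearMap.ker (∑ v : V, LinearMap.proj (R := ZMod 2) (φ := fun _ : V => ZMod 2) v) := by
  rw [Submodule.span_le]
  rintro _ ⟨e, _, rfl⟩
  simp only [SetLike.mem_coe, LinearMap.mem_ker, LinearMap.coe_sum, Finset.sum_apply,
    LinearMap.proj_apply]
  exact rankv_sum_col ends hl e

private theorem rankv_ker [Nonempty V] :
    Module.finrank (ZMod 2)
      (LinearMap.ker (∑ v : V, LinearMap.proj (R := ZMod 2) (φ := fun _ : V => ZMod 2) v)) + 1 =
    Fintype.card V := by
  have h1 := LinearMap.finrank_range_add_finrank_ker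
    (∑ v : V, LinearMap.proj (R := ZMod 2) (φ := fun _ : V => ZMod 2) v)
  have hsur : LinearMap.range
      (∑ v : V, LinearMap.proj (R := ZMod 2) (φ := fun _ : V => ZMod 2) v) = ⊤ := by
    rw [LinearMap.range_eq_top]
    intro a
    obtain ⟨v0⟩ := ‹Nonempty V›
    refine ⟨Pi.single v0 a, ?_⟩
    simp [LinearMap.coe_sum, Finset.sum_apply]
  rw [hsur] at h1
  simp only [finrank_top, Module.finrank_self, Module.finrank_fintype_fun_eq_card] at h1
  omega

theorem rk_rankLike (ends : E → Sym2 V) : RankLike (rk ends) := by
  constructor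
  · simp [rk]
  · intro X Y hXY
    exact Submodule.finrank_mono (Submodule.span_mono (Set.image_mono (by exact_mod_cast hXY)))
  · intro s X
    unfold rk
    rw [Finset.coe_insert, Set.image_insert_eq, Submodule.span_insert]
    refine le_trans (Submodule.finrank_add_le_finrank_add_finrank _ _) ?_
    have h1 : Module.finrank (ZMod 2) (Submodule.span (ZMod 2)
        {(fun v => if v ∈ ends s then 1 else 0 : V → ZMod 2)}) ≤ 1 := by
      refine le_trans (finrank_span_le_card _) ?_
      simp
    omega
  · intro X Y
    unfold rk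
    rw [Finset.coe_union, Finset.coe_inter, Set.image_union, Submodule.span_union]
    have h1 := Submodule.finrank_sup_add_finrank_inf_eq
      (Submodule.span (ZMod 2)
        ((fun e => (fun v => if v ∈ ends e then 1 else 0 : V → ZMod 2)) '' (X : Set E)))
      (Submodule.span (ZMod 2)
        ((fun e => (fun v => if v ∈ ends e then 1 else 0 : V → ZMod 2)) '' (Y : Set E)))
    have h2 : Submodule.span (ZMod 2)
        ((fun e => (fun v => if v ∈ ends e then 1 else 0 : V → ZMod 2)) '' ((X : Set E) ∩ Y)) ≤
        Submodule.span (ZMod 2)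
        ((fun e => (fun v => if v ∈ ends e then 1 else 0 : V → ZMod 2)) '' (X : Set E)) ⊓
        Submodule.span (ZMod 2)
        ((fun e => (fun v => if v ∈ ends e then 1 else 0 : V → ZMod 2)) '' (Y : Set E)) :=
      le_inf (Submodule.span_mono (Set.image_mono Set.inter_subset_left))
        (Submodule.span_mono (Set.image_mono Set.inter_subset_right))
    have h3 := Submodule.finrank_mono h2
    omega

theorem rk_add_one_le (ends : E → Sym2 V) (hl : ∀ e, ¬ (ends e).IsDiag) (U : Finset E)
    [Nonempty V] : rk ends U + 1 ≤ Fintype.card V := by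
  have h1 := Submodule.finrank_mono (rankv_span_le ends hl U)
  have h2 := rankv_ker (V := V)
  unfold rk
  omega

theorem full_of_rk (ends : E → Sym2 V) (hl : ∀ e, ¬ (ends e).IsDiag) (T : Finset E) [Nonempty V]
    (h : rk ends T + 1 = Fintype.card V) : Full ends T := by
  have h2 := rankv_ker (V := V)
  have heq := Submodule.eq_of_le_of_finrank_eq (rankv_span_le ends hl T) (by unfold rk at h; omega)
  intro x hx
  have hmem : x ∈ LinearMap.ker
      (∑ v : V, LinearMap.proj (R := ZMod 2) (φ := fun _ : V => ZMod 2) v) := by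
    simpa [LinearMap.coe_sum, Finset.sum_apply] using hx
  rw [← heq, Submodule.mem_span_image_finset_iff_exists_fun'] at hmem
  obtain ⟨c, hc⟩ := hmem
  refine ⟨T.filter (fun e => c e = 1), Finset.filter_subset _ _, ?_⟩
  rw [← hc]
  funext v
  unfold bd
  rw [Finset.sum_filter, Finset.sum_apply]
  refine Finset.sum_congr rfl fun e _ => ?_
  have h01 : c e = 0 ∨ c e = 1 := by
    generalize c e = z
    revert z
    decide
  rcases h01 with h0 | h0
  · simp [h0]
  · simp [h0]
-- END

end Fcc
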