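import Pool.Agent.Fcc.Inter
import Pool.Agent.Fcc.Rank
import Pool.Agent.Fcc.Comp

set_option autoImplicit false

namespace Fcc

open Finset

variable {V E : Type} [DecidableEq V] [Fintype V] [DecidableEq E] [Fintype E]

private theorem pack_map {S T : Type} [DecidableEq S] [DecidableEq T] (f : S ↪ T)
    {r : Finset T → ℕ} (hr : RankLike r) : RankLike (fun X : Finset S => r (X.map f)) where
  empty := by simpa using hr.empty
  mono := fun X Y hXY => hr.mono _ _ (Finset.map_subset_map.2 hXY)
  unit := fun s X => by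
    simp only [Finset.map_insert]
    exact hr.unit _ _
  submod := fun X Y => by
    simp only [Finset.map_union, Finset.map_inter]
    exact hr.submod _ _

private theorem pack_min (x u N : ℕ) (hx : x ≤ N) : x * min u N ≤ N * min u x := by
  rcases le_total u x with h | h
  · rw [min_eq_left h, min_eq_left (h.trans hx)]
    exact Nat.mul_le_mul_right _ hx
  · rw [min_eq_right h]
    calc x * min u N ≤ x * N := Nat.mul_le_mul_left _ (min_le_right _ _)
      _ = N * x := Nat.mul_comm _ _

private theorem pack_fib {K S : Type} [DecidableEq K] [Fintype K] [DecidableEq S]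
    [Fintype S] (X : Finset (K × S)) (e : S) :
    ((X.map (Equiv.prodComm K S).toEmbedding).filter (fun p => p.1 = e)).image Prod.snd
      = (univ : Finset K).filter (fun a => (a, e) ∈ X) := by
  ext a
  simp only [mem_image, mem_filter, mem_map, mem_univ, true_and]
  constructor
  · rintro ⟨⟨e', a'⟩, ⟨⟨⟨a2, e2⟩, hX, heq⟩, h1⟩, h2⟩
    simp only [Equiv.coe_toEmbedding, Equiv.prodComm_apply, Prod.swap_prod_mk,
      Prod.mk.injEq] at heq h1 h2
    obtain ⟨rfl, rfl⟩ := heq
    subst h1 h2
    exact hX
  · intro h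
    exact ⟨(e, a), ⟨⟨(a, e), h, rfl⟩, rfl⟩, rfl⟩

private theorem pack_fib1 {K S : Type} [DecidableEq K] [DecidableEq S] (X : Finset (K × S))
    (a : K) (e : S) : e ∈ (X.filter (fun p => p.1 = a)).image Prod.snd ↔ (a, e) ∈ X := by
  simp only [mem_image, mem_filter]
  constructor
  · rintro ⟨⟨a', e'⟩, ⟨hX, h1⟩, h2⟩
    simp only at h1 h2
    subst h1 h2
    exact hX
  · intro h
    exact ⟨(a, e), ⟨h, rfl⟩, rfl⟩

open Classical in
theorem packing (ends : E → Sym2 V) (hl : ∀ e, ¬ (ends e).IsDiag) (u : E → ℕ) (N h : ℕ)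
    (hcut : ∀ X : Finset V, X.Nonempty → X ≠ univ →
      2 * (N * (h + 1)) ≤ ∑ e ∈ cut ends X, min (u e) N) :
    ∃ T : Fin N → Fin (h + 1) → Finset E, (∀ i j, Full ends (T i j)) ∧
      (∀ i j j', j ≠ j' → Disjoint (T i j) (T i j')) ∧
      ∀ e, (univ.filter (fun i => ∃ j, e ∈ T i j)).card ≤ u e := by
  rcases isEmpty_or_nonempty V with hV | hV
  · refine ⟨fun _ _ => ∅, fun i j x _ => ⟨∅, Finset.Subset.refl _, funext fun v => hV.elim v⟩,
      fun i j j' _ => Finset.disjoint_empty_left _, fun e => ?_⟩
    simp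
  rcases Nat.eq_zero_or_pos N with hN | hN
  · subst hN
    refine ⟨fun i => i.elim0, fun i => i.elim0, fun i => i.elim0, fun e => ?_⟩
    simp
  set n := Fintype.card V with hn
  set K := Fin N × Fin (h + 1) with hK
  set r1 : Finset (K × E) → ℕ := fun X =>
    ∑ a, rk ends ((X.filter (fun p => p.1 = a)).image Prod.snd) with hr1
  set r3 : Finset (E × K) → ℕ := fun X =>
    ∑ e, min (u e) ((((X.filter (fun p => p.1 = e)).image Prod.snd).image Prod.fst).card) with hr3
  set r2 : Finset (K × E) → ℕ := fun X => r3 (X.map (Equiv.prodComm K E).toEmbedding) with hr2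
  have h1 : RankLike r1 := rankLike_fiber (fun _ => rk ends) (fun _ => rk_rankLike ends)
  have h3 : RankLike r3 := rankLike_fiber (fun e => fun Y : Finset K =>
    min (u e) (Y.image Prod.fst).card) (fun e => rankLike_rows (u e))
  have h2 : RankLike r2 := pack_map _ h3
  have hr2' : ∀ X : Finset (K × E), r2 X = ∑ e, min (u e)
      ((((univ : Finset K).filter (fun a => (a, e) ∈ X)).image Prod.fst).card) := by
    intro X
    simp only [hr2, hr3]
    refine Finset.sum_congr rfl fun e _ => ?_
    rw [pack_fib]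
  have hk : ∀ U : Finset (K × E), N * (h + 1) * (n - 1) ≤ r1 U + r2 Uᶜ := by
    intro U
    set W : Fin N → Finset E := fun i => univ.filter (fun e => ∀ j, ((i, j), e) ∈ U) with hW
    set x : E → ℕ := fun e => ((univ : Finset (Fin N)).filter (fun i => e ∉ W i)).card with hx
    have hxN : ∀ e, x e ≤ N := by
      intro e
      calc x e ≤ (univ : Finset (Fin N)).card := Finset.card_filter_le _ _
        _ = N := by simp
    have e1 : (h + 1) * ∑ i, rk ends (W i) ≤ r1 U := by
      simp only [hr1]
      rw [← Finset.univ_product_univ, Finset.sum_product, Finset.mul_sum]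
      refine Finset.sum_le_sum fun i _ => ?_
      calc (h + 1) * rk ends (W i) = ∑ _j : Fin (h + 1), rk ends (W i) := by simp
        _ ≤ _ := by
          refine Finset.sum_le_sum fun j _ => ?_
          refine (rk_rankLike ends).mono _ _ ?_
          intro e he
          rw [pack_fib1]
          exact (Finset.mem_filter.1 he).2 j
    have e2 : r2 Uᶜ = ∑ e, min (u e) (x e) := by
      rw [hr2']
      refine Finset.sum_congr rfl fun e _ => ?_
      congr 2
      ext i
      simp only [hW, mem_image, mem_filter, mem_univ, true_and, mem_compl]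
      constructor
      · rintro ⟨⟨i', j⟩, h4, rfl⟩ h5
        exact h4 (h5 j)
      · intro h4
        push Not at h4
        obtain ⟨j, hj⟩ := h4
        exact ⟨(i, j), hj, rfl⟩
    have e3 : ∀ i, N * (h + 1) * (n - 1 - rk ends (W i)) ≤ ∑ e ∈ (W i)ᶜ, min (u e) N :=
      fun i => comp_ineq ends hl (fun e => min (u e) N) (N * (h + 1)) hcut (W i)
    have e4 : N * ((h + 1) * ∑ i, (n - 1 - rk ends (W i))) ≤ N * ∑ e, min (u e) (x e) := by
      calc N * ((h + 1) * ∑ i, (n - 1 - rk ends (W i)))
          = ∑ i, N * (h + 1) * (n - 1 - rk ends (W i)) := by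
            rw [← Nat.mul_assoc, Finset.mul_sum]
        _ ≤ ∑ i, ∑ e ∈ (W i)ᶜ, min (u e) N := Finset.sum_le_sum fun i _ => e3 i
        _ = ∑ i, ∑ e, if e ∉ W i then min (u e) N else 0 := by
            refine Finset.sum_congr rfl fun i _ => ?_
            rw [← Finset.sum_filter]
            refine Finset.sum_congr ?_ fun _ _ => rfl
            ext e
            simp
        _ = ∑ e, ∑ i, if e ∉ W i then min (u e) N else 0 := Finset.sum_comm
        _ = ∑ e, x e * min (u e) N := by
            refine Finset.sum_congr rfl fun e _ => ?_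
            rw [← Finset.sum_filter, Finset.sum_const, smul_eq_mul]
        _ ≤ ∑ e, N * min (u e) (x e) := Finset.sum_le_sum fun e _ => pack_min _ _ _ (hxN e)
        _ = N * ∑ e, min (u e) (x e) := by rw [Finset.mul_sum]
    have e5 := Nat.le_of_mul_le_mul_left e4 hN
    calc N * (h + 1) * (n - 1) = (h + 1) * ∑ _i : Fin N, (n - 1) := by
          simp only [Finset.sum_const, Finset.card_univ, Fintype.card_fin, smul_eq_mul]
          ring
      _ ≤ (h + 1) * ∑ i : Fin N, (rk ends (W i) + (n - 1 - rk ends (W i))) := by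
          refine Nat.mul_le_mul_left _ (Finset.sum_le_sum fun i _ => ?_)
          omega
      _ = (h + 1) * ∑ i, rk ends (W i) + (h + 1) * ∑ i, (n - 1 - rk ends (W i)) := by
          rw [Finset.sum_add_distrib, Nat.mul_add]
      _ ≤ r1 U + r2 Uᶜ := by
          rw [e2]
          exact Nat.add_le_add e1 e5
  obtain ⟨I, hI, hI1, hI2⟩ := intersection h1 h2 _ hk
  have hcV : 0 < n := Fintype.card_pos
  -- ranks
  have hrk : ∀ a : K, rk ends ((I.filter (fun p => p.1 = a)).image Prod.snd) = n - 1 := by
    have hle : ∀ a : K, rk ends ((I.filter (fun p => p.1 = a)).image Prod.snd) ≤ n - 1 := by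
      intro a
      have := rk_add_one_le ends hl ((I.filter (fun p => p.1 = a)).image Prod.snd)
      omega
    have hsum : ∑ a : K, rk ends ((I.filter (fun p => p.1 = a)).image Prod.snd)
        = ∑ _a : K, (n - 1) := by
      rw [show (∑ a : K, rk ends ((I.filter (fun p => p.1 = a)).image Prod.snd)) = r1 I from rfl,
        hI1]
      simp only [Finset.sum_const, Finset.card_univ, smul_eq_mul, hK, Fintype.card_prod,
        Fintype.card_fin]
    exact fun a => (Finset.sum_eq_sum_iff_of_le fun b _ => hle b).1 hsum a (Finset.mem_univ a)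
  -- rows
  set Y : E → Finset K := fun e => (univ : Finset K).filter (fun a => (a, e) ∈ I) with hY
  have hYle : ∀ e, min (u e) ((Y e).image Prod.fst).card ≤ (Y e).card := fun e =>
    (min_le_right _ _).trans Finset.card_image_le
  have hcard : ∑ e, (Y e).card = I.card := by
    rw [← Finset.card_sigma]
    refine Finset.card_bij (fun p _ => (p.2, p.1)) ?_ ?_ ?_
    · intro p hp
      exact (Finset.mem_filter.1 (Finset.mem_sigma.1 hp).2).2
    · rintro ⟨e, a⟩ _ ⟨e', a'⟩ _ heq
      simp only [Prod.mk.injEq] at heq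
      obtain ⟨rfl, rfl⟩ := heq
      rfl
    · rintro ⟨a, e⟩ hp
      exact ⟨⟨e, a⟩, Finset.mem_sigma.2 ⟨Finset.mem_univ _,
        Finset.mem_filter.2 ⟨Finset.mem_univ _, hp⟩⟩, rfl⟩
  have hrow : ∀ e, min (u e) ((Y e).image Prod.fst).card = (Y e).card := by
    have hsum : ∑ e, min (u e) ((Y e).image Prod.fst).card = ∑ e, (Y e).card := by
      rw [hcard, hI, ← hI2, hr2']
    exact fun e => (Finset.sum_eq_sum_iff_of_le fun b _ => hYle b).1 hsum e (Finset.mem_univ e)
  refine ⟨fun i j => (I.filter (fun p => p.1 = (i, j))).image Prod.snd, fun i j => ?_,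
    fun i j j' hjj => ?_, fun e => ?_⟩
  · refine full_of_rk ends hl _ ?_
    rw [hrk]
    omega
  · rw [Finset.disjoint_left]
    intro e he he'
    rw [pack_fib1] at he he'
    have hinj : Set.InjOn Prod.fst (Y e : Set K) := by
      refine Finset.injOn_of_card_image_eq (le_antisymm Finset.card_image_le ?_)
      rw [← hrow e]
      exact min_le_right _ _
    have := hinj (show (i, j) ∈ (Y e : Set K) from Finset.mem_coe.2
        (Finset.mem_filter.2 ⟨Finset.mem_univ _, he⟩))
      (show (i, j') ∈ (Y e : Set K) from Finset.mem_coe.2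
        (Finset.mem_filter.2 ⟨Finset.mem_univ _, he'⟩)) rfl
    exact hjj (Prod.mk.inj this).2
  · have hx : (univ.filter (fun i => ∃ j, e ∈ (I.filter (fun p => p.1 = (i, j))).image Prod.snd))
        = (Y e).image Prod.fst := by
      ext i
      rw [mem_filter, mem_image]
      constructor
      · rintro ⟨_, j, hj⟩
        exact ⟨(i, j), mem_filter.2 ⟨mem_univ _, (pack_fib1 I (i, j) e).1 hj⟩, rfl⟩
      · rintro ⟨⟨i', j⟩, hj, rfl⟩
        exact ⟨mem_univ _, j, (pack_fib1 I (i', j) e).2 (mem_filter.1 hj).2⟩
    rw [hx]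
    have h5 := hrow e
    have h6 : ((Y e).image Prod.fst).card ≤ (Y e).card := Finset.card_image_le
    have h7 : min (u e) ((Y e).image Prod.fst).card ≤ u e := min_le_left _ _
    omega

end Fcc
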